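import Pool.Agent.PRank.DefsLemmas

/-!
# The reduced `p`-rank zero locus near a superspecial point of genus 3

`O = k[[T_ij]]` (six variables, `T` symmetric `3 × 3`) with Hasse-Witt matrix `T` is the
universal equicharacteristic deformation (Norman-Oort) of a superspecial principally polarised
abelian threefold.  Near a hyperelliptic genus 3 curve the Torelli map `M₃ → A₃` is
`O → O_M = O[s]/(s² - u)` with `u = 0` the image of the hyperelliptic locus, which is `s = 0`
in `M₃`.
-/

namespace Pool.Agent.Results.MP_919cc8_ag.ConeNonReduced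

open Pool.Agent.PRank

/-- The generic symmetric `3 × 3` matrix over the ring of power series in its six entries. -/
noncomputable def genericT (k : Type*) [Field k] :
    Matrix (Fin 3) (Fin 3) (MvPowerSeries (Fin 6) k) :=
  !![MvPowerSeries.X 0, MvPowerSeries.X 1, MvPowerSeries.X 2;
     MvPowerSeries.X 1, MvPowerSeries.X 3, MvPowerSeries.X 4;
     MvPowerSeries.X 2, MvPowerSeries.X 4, MvPowerSeries.X 5]

/-- The double cover `O[s]/(s² - u)`. -/
abbrev DoubleCover {O : Type*} [CommRing O] (u : O) : Type _ :=
  AdjoinRoot (Polynomial.X ^ 2 - Polynomial.C u : Polynomial O)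

/-- In the double cover `s² = u` of the universal deformation of a superspecial principally
polarised abelian threefold, the scheme-theoretic intersection of the reduced `p`-rank zero locus
with the divisor `s = 0` is never reduced (`u` any element of the maximal ideal which does not
vanish on the `p`-rank zero locus, `p` any odd prime). -/
theorem result {k : Type*} [Field k] [IsAlgClosed k] (p : ℕ) [Fact p.Prime] [CharP k p]
    (hp : p ≠ 2) (u : MvPowerSeries (Fin 6) k) (hu0 : MvPowerSeries.constantCoeff u = 0)
    (hu : u ∉ pRankIdeal p (genericT k) 0) :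
    ¬ (pRankIdeal p ((genericT k).map (algebraMap _ (DoubleCover u))) 0 ⊔
        Ideal.span {AdjoinRoot.root (Polynomial.X ^ 2 - Polynomial.C u)}).IsRadical := by
  have hpp : p.Prime := Fact.out
  obtain ⟨r, hr⟩ : ∃ r, p = 2 * r + 1 := hpp.odd_of_ne_two hp
  have hO : ((p : ℕ) : MvPowerSeries (Fin 6) k) = 0 := by
    have h := map_natCast (MvPowerSeries.C (σ := Fin 6) (R := k)) p
    rw [CharP.cast_eq_zero, map_zero] at h
    exact h.symm
  have hB : ((p : ℕ) : DoubleCover u) = 0 := by
    have h := map_natCast (AdjoinRoot.of (Polynomial.X ^ 2 - Polynomial.C u :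
      Polynomial (MvPowerSeries (Fin 6) k))) p
    rw [hO, map_zero] at h
    exact h.symm
  have hV : VI k p = pRankIdeal p (genericT k) 0 := (pRankIdeal_zero hO _).symm
  obtain ⟨z, hz2, hz⟩ := core (k := k) hr hu0 (hV ▸ hu)
  have h2 : (2 : k) ≠ 0 := two_ne hr
  rw [pRankIdeal_zero hB, ← entIdeal_map]
  have hmap : (entIdeal p (genericT k)).map (algebraMap _ (DoubleCover u)) ≤
      (VI k p).map (algebraMap _ (DoubleCover u)) := Ideal.map_mono Ideal.le_radical
  have hrad : ((VI k p).map (algebraMap _ (DoubleCover u))).radical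
      = ((entIdeal p (genericT k)).map (algebraMap _ (DoubleCover u))).radical := by
    apply le_antisymm
    · rw [Ideal.radical_le_radical_iff, VI]
      exact Ideal.map_radical_le _
    · exact Ideal.radical_mono hmap
  rw [← hrad]
  refine double_cover (AdjoinRoot.of _) (AdjoinRoot.root _) u (adjoin_sq_sq u)
    (adjoin_sq_gen u) (fun a b h => adjoin_sq_ind u a b h)
    (t := MvPowerSeries.C (2⁻¹ : k)) ?_ (Ideal.radical_idem _) hz2 hz
  have : (2 : MvPowerSeries (Fin 6) k) = MvPowerSeries.C (2 : k) := by
    rw [map_ofNat]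
  rw [this, ← map_mul, mul_inv_cancel₀ h2, map_one]

end Pool.Agent.Results.MP_919cc8_ag.ConeNonReduced
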