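import Pool.Agent.PRank.MainRed
import Pool.Agent.PRank.Versal2

/-!
# The intersection `V_{3,0} ∩ H_3` is not reduced at the curve `w² = y⁷ - y`

The family `C_c`, `c ∈ 𝔸⁶`, of `Pool.Agent.PRank.Curve` is an algebraic universal deformation of
the hyperelliptic curve `C_0 : w² = y⁷ - y` of genus three: no tangent direction gives a trivial
first order deformation, and `6 = 3 g - 3`.  So `𝔸⁶ → M_3` is étale at the origin, and the
hyperelliptic locus is given by the last coordinate `s = 0`.  In a neighbourhood of the origin the
reduced locus `V_{3,0}` is given by the polynomials that vanish at all `c` for which `C_c` has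
`p`-rank zero.
-/

namespace Pool.Agent.Results.MP_919cc8_ag.GenusThree

open Pool.Agent.PRank

/-- For every prime `p ≡ 3 mod 4` with `p > 3`: the family `C_c` is versal at the origin, and the
scheme-theoretic intersection of its reduced `p`-rank zero locus with the hyperelliptic locus
`s = 0` is not reduced at the origin. -/
theorem result (p : ℕ) [Fact p.Prime] (hp4 : p % 4 = 3) (hp3 : 3 < p)
    (k : Type*) [Field k] [IsAlgClosed k] [CharP k p] :
    (∀ t : Fin 6 → k, TrivialDeformation t → t = 0) ∧
    ¬ ReducedAtOrigin (MvPolynomial.vanishingIdeal k {c : Fin 6 → k | pRank p c ≤ 0}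
      ⊔ Ideal.span {MvPolynomial.X 5}) := by
  have hpp : p.Prime := Fact.out
  have hp : p = 4 * (p / 4) + 3 := by omega
  have h3 : p % 3 ≠ 0 := by
    intro h
    have := (Nat.prime_dvd_prime_iff_eq Nat.prime_three hpp).1 (Nat.dvd_of_mod_eq_zero h)
    omega
  refine ⟨fun t ht => versal ?_ t ht, not_reducedAtOrigin (q := p / 4 / 3) hp (by omega)⟩
  have h6 : ((6 : ℕ) : k) ≠ 0 := by
    rw [Ne, CharP.cast_eq_zero_iff k p]
    intro h
    have h6' : p ∣ 2 * 3 := h
    rcases (Nat.Prime.dvd_mul hpp).1 h6' with h2 | h2
    · have := Nat.le_of_dvd (by norm_num) h2; omega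
    · have := Nat.le_of_dvd (by norm_num) h2; omega
  exact_mod_cast h6

end Pool.Agent.Results.MP_919cc8_ag.GenusThree
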